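import Pool.Agent.Helper37.SY.Spec
import Pool.Agent.Helper77.LM.Simp

/-!
# Swarm SY: the final statement in elementary terms
-/

set_option autoImplicit false

noncomputable section

open MeasureTheory Set Filter Topology
open scoped ENNReal

namespace Helper37.SY

open Pool.Agent.Helper77.LM Helper63.LP

variable {n : ℕ}

/-- the `q`-th moment of the normalised volume of a random simplex -/
def Mom (q : ℝ) (D : Set (Fin n → ℝ)) : ℝ :=
  (∫ x in {x : Fin (n + 1) → Fin n → ℝ | ∀ i, x i ∈ D},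
    (volume (convexHull ℝ (Set.range x))).toReal ^ q) / (volume D).toReal ^ ((n : ℝ) + 1 + q)

lemma mom_eq (hV : S_VOL) (q : ℝ) (D : Set (Fin n → ℝ)) :
    Mom q D = E q D / (n.factorial : ℝ) ^ q := by
  have h : ∀ x : Fin (n + 1) → Fin n → ℝ,
      (volume (convexHull ℝ (Set.range x))).toReal ^ q = W q x / (n.factorial : ℝ) ^ q := by
    intro x
    rw [hV n x, Real.div_rpow (abs_nonneg _) (by positivity), W]
  simp only [Mom, h]
  rw [integral_div, E, Gq]
  ring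

lemma E_std (hH : S_HOM) {q : ℝ} (hq : 1 ≤ q) (n : ℕ) : E q (stdS n) = E q (Dl n) := by
  have e : {x : Fin n → ℝ | (Bs n).mulVec x + (fun _ => -1) ∈ Dl n} = stdS n := by
    ext x; exact mem_Dl_iff x
  have h1 := hH n q hq (Bs n) (fun _ => -1) (Dl n) det_Bs isClosed_Dl.measurableSet
  have h2 := volume_SimD (Bs n) det_Bs (fun _ => -1)
  rw [e] at h1 h2
  have hd : 0 < |(Bs n).det| := abs_pos.2 det_Bs
  have h3 : (volume (stdS n)).toReal = |(Bs n).det|⁻¹ * (volume (Dl n)).toReal := by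
    rw [h2, ENNReal.toReal_mul, ENNReal.toReal_ofReal (by positivity)]
  have hVn : 0 < (volume (Dl n)).toReal := V_pos n
  rw [E, E, h3, Real.mul_rpow (by positivity) hVn.le, Real.inv_rpow hd.le, ← h1]
  have h4 : 0 < |(Bs n).det| ^ ((n : ℝ) + 1 + q) := Real.rpow_pos_of_pos hd _
  have h5 : 0 < (volume (Dl n)).toReal ^ ((n : ℝ) + 1 + q) := Real.rpow_pos_of_pos hVn _
  field_simp

theorem fin (hG : S_GEN) (hH : S_HOM) (hV : S_VOL) (n : ℕ) (hn : 2 ≤ n) (q : ℝ) (hq : 1 ≤ q) :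
    ∃ δ : ℝ, 0 < δ ∧ ∀ D T₀ : Set (Fin n → ℝ), Convex ℝ D → IsCompact D → (interior D).Nonempty →
      IsSimplex T₀ → D ⊆ T₀ → volume T₀ ≤ ENNReal.ofReal (1 + δ) * volume D →
      Mom q D ≤ Mom q (stdS n) ∧ (Mom q D = Mom q (stdS n) → IsSimplex D) ∧
      ∃ T : Set (Fin n → ℝ), IsSimplex T ∧ D ⊆ T ∧ volume T ≤ volume T₀ ∧
        Mom q D ≤ (1 - δ * ((volume T).toReal / (volume D).toReal - 1)) * Mom q (stdS n) := by
  obtain ⟨k, rfl⟩ : ∃ k, n = k + 2 := ⟨n - 2, by omega⟩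
  obtain ⟨δ, hδ, h⟩ := hG k q hq
  have hf : (0 : ℝ) < ((k + 2).factorial : ℝ) ^ q :=
    Real.rpow_pos_of_pos (by exact_mod_cast (k + 2).factorial_pos) _
  refine ⟨δ, hδ, fun D T₀ hc hk hi hT hDT hv => ?_⟩
  obtain ⟨h1, h2, T, hT', hKT, hTv, h3⟩ := h D T₀ hc hk hi (simD_of_isSimplex hT) hDT hv
  simp only [mom_eq hV, E_std hH hq]
  refine ⟨div_le_div_of_nonneg_right h1 hf.le, fun he => isSimplex_of_simD (h2 ?_), T,
    isSimplex_of_simD hT', hKT, hTv, ?_⟩
  · rwa [div_left_inj' hf.ne'] at he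
  · rw [← mul_div_assoc]
    exact div_le_div_of_nonneg_right h3 hf.le

end Helper37.SY

end
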