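import Pool.Agent.Helper37.SY.Spec

/-!
SY part GEN: from the centered position to all positions (adapted from `Helper77/LP/GEN.lean`).
-/

set_option autoImplicit false
set_option maxHeartbeats 1000000

noncomputable section

open MeasureTheory Set Filter Topology
open scoped ENNReal Pointwise

namespace Helper37.SY.GEN

open Pool.Agent.Helper77.LM

variable {n m : ℕ}

lemma E_image (hH : S_HOM) {q : ℝ} (hq : 1 ≤ q) (A : Matrix (Fin n) (Fin n) ℝ) (c : Fin n → ℝ)
    (hA : A.det ≠ 0) {K : Set (Fin n → ℝ)}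
    (hm : MeasurableSet ((fun x => A.mulVec x + c) '' K)) :
    E q ((fun x => A.mulVec x + c) '' K) = E q K := by
  have hd : 0 < |A.det| := abs_pos.2 hA
  have hinj : Function.Injective fun x : Fin n → ℝ => A.mulVec x + c := by
    intro x y hxy
    have h1 : A.mulVec x = A.mulVec y := add_right_cancel hxy
    exact Matrix.mulVec_injective_of_det_ne_zero hA h1
  have e : {x | A.mulVec x + c ∈ (fun x => A.mulVec x + c) '' K} = K := by
    ext x
    constructor
    · rintro ⟨y, hy, hxy⟩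
      rwa [← hinj hxy]
    · intro hx
      exact ⟨x, hx, rfl⟩
  have h1 := hH n q hq A c _ hA hm
  rw [e] at h1
  have himg : (fun x => A.mulVec x + c) '' K
      = (fun x => x + (-c)) ⁻¹' ((fun x => A.mulVec x) '' K) := by
    ext x
    constructor
    · rintro ⟨y, hy, rfl⟩
      exact ⟨y, hy, by simp⟩
    · rintro ⟨y, hy, hxy⟩
      refine ⟨y, hy, ?_⟩
      simp only at hxy ⊢
      rw [hxy]; simp
  have hv : (volume ((fun x => A.mulVec x + c) '' K)).toReal = |A.det| * (volume K).toReal := by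
    rw [himg, measure_preimage_add_right, volume_image_mulVec, ENNReal.toReal_mul,
      ENNReal.toReal_ofReal hd.le]
  rw [E, E, hv, ← h1, Real.mul_rpow hd.le ENNReal.toReal_nonneg,
    mul_div_mul_left _ _ (Real.rpow_pos_of_pos hd _).ne']

theorem main_low (h1 : S_NEA) (hH : S_HOM) (hF : S_FCV) (k₀ : ℕ) (q : ℝ) (hq : 1 ≤ q) :
    ∃ δ : ℝ, 0 < δ ∧
    ∀ (K T₀ : Set (Fin (k₀ + 2) → ℝ)),
    Convex ℝ K → IsCompact K → (interior K).Nonempty → SimD T₀ → K ⊆ T₀ →
    volume T₀ ≤ ENNReal.ofReal (1 + δ) * volume K →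
    ∃ T : Set (Fin (k₀ + 2) → ℝ), SimD T ∧ K ⊆ T ∧ volume T ≤ volume T₀ ∧
      E q K ≤ (1 - δ * ((volume T).toReal / (volume K).toReal - 1)) * E q (Dl (k₀ + 2)) := by
  obtain ⟨m, rfl⟩ : ∃ m, m = k₀ + 1 := ⟨_, rfl⟩
  obtain ⟨η0, c1, hη0, hη1, hc1, hlow⟩ := h1 k₀ q hq
  change ∃ δ : ℝ, 0 < δ ∧
    ∀ (K T₀ : Set (Fin ((k₀ + 1) + 1) → ℝ)),
    Convex ℝ K → IsCompact K → (interior K).Nonempty → SimD T₀ → K ⊆ T₀ →
    volume T₀ ≤ ENNReal.ofReal (1 + δ) * volume K →
    ∃ T : Set (Fin ((k₀ + 1) + 1) → ℝ), SimD T ∧ K ⊆ T ∧ volume T ≤ volume T₀ ∧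
      E q K ≤ (1 - δ * ((volume T).toReal / (volume K).toReal - 1)) * E q (Dl ((k₀ + 1) + 1))
  have hlow' : ∀ K : Set (Fin ((k₀ + 1) + 1) → ℝ), Near (k₀ + 1) η0 K →
    E q K ≤ (1 - c1 * (volume (Dl ((k₀ + 1) + 1) \ K)).toReal) * E q (Dl ((k₀ + 1) + 1)) :=
    fun K hK => (hlow K hK).2
  have hE0 : 0 ≤ E q (Dl ((k₀ + 1) + 1)) := by
    have h2 := (hF ((k₀ + 1) + 1) q hq).2.2.2.2.2
    rw [E]
    exact div_nonneg h2.le (Real.rpow_nonneg ENNReal.toReal_nonneg _)
  clear hlow
  generalize k₀ + 1 = m at *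
  have hV := V_pos (m + 1)
  -- the volume threshold
  set ε : ℝ := (η0 / ((m + 1 : ℕ) + 1)) ^ (m + 1) with hε
  have hε0 : 0 < ε := by positivity
  set δ : ℝ := min (min 1 (ε / 2)) (c1 * V (m + 1) / 2) with hδ
  have hδ0 : 0 < δ := by positivity
  have hδa : δ ≤ 1 := (min_le_left _ _).trans (min_le_left _ _)
  have hδb : δ ≤ ε / 2 := (min_le_left _ _).trans (min_le_right _ _)
  have hδd : δ ≤ c1 * V (m + 1) / 2 := min_le_right _ _
  refine ⟨δ, hδ0, ?_⟩
  intro K T₀ hcv hcp hin hT₀ hKT hvol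
  obtain ⟨A0, c0, hA0, rfl⟩ := hT₀
  obtain ⟨A, c, hA, hAK, hmax⟩ := exists_max hin (fun x hx => hKT hx) hA0
  have hd0 : 0 < |A.det| := abs_pos.2 hA
  have hd00 : 0 < |A0.det| := abs_pos.2 hA0
  have hle : |A0.det| ≤ |A.det| := hmax A0 c0 (fun x hx => hKT hx)
  have hmK : MeasurableSet K := hcp.isClosed.measurableSet
  have hVK : 0 < volume K := Measure.measure_pos_of_nonempty_interior volume hin
  have hVKf : volume K ≠ ∞ := hcp.measure_lt_top.ne
  set k : ℝ := (volume K).toReal with hk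
  have hk0 : 0 < k := ENNReal.toReal_pos hVK.ne' hVKf
  -- the image
  set K' : Set (Fin (m + 1) → ℝ) := (fun x => A.mulVec x + c) '' K with hK'
  have hAc : Continuous fun x : Fin (m + 1) → ℝ => A.mulVec x + c := by
    refine Continuous.add ?_ continuous_const
    exact Continuous.matrix_mulVec continuous_const continuous_id
  have hcp' : IsCompact K' := hcp.image hAc
  have hcv' : Convex ℝ K' := by
    rintro _ ⟨x, hx, rfl⟩ _ ⟨y, hy, rfl⟩ a b ha hb hab
    refine ⟨a • x + b • y, hcv hx hy ha hb hab, ?_⟩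
    simp only [Matrix.mulVec_add, Matrix.mulVec_smul, smul_add]
    have : c = a • c + b • c := by rw [← add_smul, hab, one_smul]
    conv_lhs => rw [this]
    abel
  have hsub' : K' ⊆ Dl (m + 1) := by
    rintro _ ⟨x, hx, rfl⟩
    exact hAK x hx
  have hne' : K'.Nonempty := by
    obtain ⟨x, hx⟩ := hin
    exact ⟨_, x, interior_subset hx, rfl⟩
  have hMx : Mx K' := by
    intro M c' hM
    have h1 := hmax (LinearMap.toMatrix' M * A) (M c + c') (by
      intro x hx
      have h2 := hM _ ⟨x, hx, rfl⟩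
      simp only [map_add] at h2
      rw [← Matrix.mulVec_mulVec, LinearMap.toMatrix'_mulVec, ← add_assoc]
      exact h2)
    rw [Matrix.det_mul, abs_mul, LinearMap.det_toMatrix'] at h1
    exact le_of_mul_le_mul_right (by linarith) hd0
  -- volumes
  have himg : K' = (fun x => x + (-c)) ⁻¹' ((fun x => A.mulVec x) '' K) := by
    ext x
    constructor
    · rintro ⟨y, hy, rfl⟩
      exact ⟨y, hy, by simp⟩
    · rintro ⟨y, hy, hxy⟩
      refine ⟨y, hy, ?_⟩
      simp only at hxy ⊢
      rw [hxy]; simp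
  have hvK' : volume K' = ENNReal.ofReal |A.det| * volume K := by
    rw [himg, measure_preimage_add_right, volume_image_mulVec]
  have hvK'r : (volume K').toReal = |A.det| * k := by
    rw [hvK', ENNReal.toReal_mul, ENNReal.toReal_ofReal hd0.le]
  have hK'f : volume K' ≠ ∞ := hcp'.measure_lt_top.ne
  have hT0r : |A0.det|⁻¹ * V (m + 1) ≤ (1 + δ) * k := by
    rw [volume_SimD A0 hA0 c0] at hvol
    have h1 := ENNReal.toReal_mono (ENNReal.mul_ne_top ENNReal.ofReal_ne_top hVKf) hvol
    rw [ENNReal.toReal_mul, ENNReal.toReal_mul, ENNReal.toReal_ofReal (by positivity),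
      ENNReal.toReal_ofReal (by positivity)] at h1
    exact h1
  have hVle : V (m + 1) ≤ (1 + δ) * (|A.det| * k) := by
    rw [inv_mul_le_iff₀ hd00] at hT0r
    refine hT0r.trans ?_
    calc |A0.det| * ((1 + δ) * k) ≤ |A.det| * ((1 + δ) * k) :=
          mul_le_mul_of_nonneg_right hle (by positivity)
      _ = _ := by ring
  set D : Set (Fin (m + 1) → ℝ) := Dl (m + 1) \ K' with hD
  have hmD : MeasurableSet D := isClosed_Dl.measurableSet.diff hcp'.isClosed.measurableSet
  have hDf : volume D ≠ ∞ :=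
    ((measure_mono Set.sdiff_subset).trans_lt isCompact_Dl.measure_lt_top).ne
  set d : ℝ := (volume D).toReal with hd
  have hdn : 0 ≤ d := ENNReal.toReal_nonneg
  have hVsum : V (m + 1) = |A.det| * k + d := by
    have h1 : volume (Dl (m + 1)) = volume K' + volume D := by
      rw [hD, ← measure_union Set.disjoint_sdiff_right hmD, Set.union_sdiff_cancel hsub']
    rw [V, h1, ENNReal.toReal_add hK'f hDf, hvK'r]
  have hkV : |A.det| * k ≤ V (m + 1) := by linarith
  have hdle : d ≤ δ * V (m + 1) := by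
    have h1 : δ * (|A.det| * k) ≤ δ * V (m + 1) := mul_le_mul_of_nonneg_left hkV hδ0.le
    linarith
  have hkhalf : V (m + 1) / 2 ≤ |A.det| * k := by
    have h1 : δ * (|A.det| * k) ≤ 1 * (|A.det| * k) :=
      mul_le_mul_of_nonneg_right hδa (by positivity)
    linarith
  -- near position
  have hbig : ∀ x ∈ Dl (m + 1), (1 - η0) • x ∈ K' := by
    refine big_of_volume hη0 hη1 hcv' hcp'.isClosed ?_
    rw [← ENNReal.toReal_lt_toReal hDf (ENNReal.mul_ne_top ENNReal.ofReal_ne_top vol_ne_top),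
      ENNReal.toReal_mul, ENNReal.toReal_ofReal (by positivity)]
    change d < ε * V (m + 1)
    have h1 : δ * V (m + 1) ≤ ε / 2 * V (m + 1) := mul_le_mul_of_nonneg_right hδb hV.le
    have h2 : 0 < ε * V (m + 1) := by positivity
    linarith
  have hNear : Near m η0 K' :=
    ⟨hcv', hcp'.isClosed, hsub', hbig, fun i => cen_of_max hcv' hcp' hne' hsub' hMx i⟩
  have hfin := hlow' K' hNear
  rw [hK', E_image hH hq A c hA hcp'.isClosed.measurableSet] at hfin
  refine ⟨{x | A.mulVec x + c ∈ Dl (m + 1)}, ⟨A, c, hA, rfl⟩, fun x hx => hAK x hx, ?_, ?_⟩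
  · rw [volume_SimD A hA c, volume_SimD A0 hA0 c0]
    refine mul_le_mul' (ENNReal.ofReal_le_ofReal ?_) le_rfl
    exact inv_anti₀ hd00 hle
  · refine le_trans hfin ?_
    rw [volume_SimD A hA c, ENNReal.toReal_mul, ENNReal.toReal_ofReal (by positivity)]
    have hratio : |A.det|⁻¹ * (volume (Dl (m + 1))).toReal / k - 1 = d / (|A.det| * k) := by
      change |A.det|⁻¹ * V (m + 1) / k - 1 = _
      rw [hVsum]; field_simp; ring
    rw [hratio]
    have h3 : δ * (d / (|A.det| * k)) ≤ c1 * d := by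
      have h4 : d / (|A.det| * k) ≤ d / (V (m + 1) / 2) :=
        div_le_div_of_nonneg_left hdn (by positivity) hkhalf
      calc δ * (d / (|A.det| * k)) ≤ (c1 * V (m + 1) / 2) * (d / (V (m + 1) / 2)) :=
            mul_le_mul hδd h4 (by positivity) (by positivity)
        _ = c1 * d := by field_simp
    exact mul_le_mul_of_nonneg_right (by linarith) hE0

/-- SY part GEN -/
theorem main (h1 : S_NEA) (hH : S_HOM) (hF : S_FCV) : S_GEN := by
  intro k₀ q hq
  obtain ⟨δ, hδ, h⟩ := main_low h1 hH hF k₀ q hq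
  refine ⟨δ, hδ, ?_⟩
  intro K T₀ hcv hcp hin hT₀ hKT hvol
  obtain ⟨T, hT, hKsub, hTv, hlow⟩ := h K T₀ hcv hcp hin hT₀ hKT hvol
  have hEp : 0 < E q (Dl (k₀ + 2)) := by
    have h2 := (hF (k₀ + 2) q hq).2.2.2.2.2
    rw [E]
    exact div_pos h2 (Real.rpow_pos_of_pos (V_pos _) _)
  have hVK : 0 < volume K := Measure.measure_pos_of_nonempty_interior volume hin
  have hVKf : volume K ≠ ∞ := hcp.measure_lt_top.ne
  have hVT : volume T ≠ ∞ := by
    obtain ⟨A, c, hA, rfl⟩ := hT
    rw [volume_SimD A hA c]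
    exact ENNReal.mul_ne_top ENNReal.ofReal_ne_top vol_ne_top
  have hk0 : 0 < (volume K).toReal := ENNReal.toReal_pos hVK.ne' hVKf
  have hmono : (volume K).toReal ≤ (volume T).toReal :=
    ENNReal.toReal_mono hVT (measure_mono hKsub)
  have hr : 0 ≤ (volume T).toReal / (volume K).toReal - 1 := by
    rw [sub_nonneg, le_div_iff₀ hk0]; linarith
  refine ⟨?_, ?_, T, hT, hKsub, hTv, hlow⟩
  · refine hlow.trans ?_
    have h3 := mul_nonneg hδ.le hr
    nlinarith
  · intro heq
    rw [heq] at hlow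
    have h3 : δ * ((volume T).toReal / (volume K).toReal - 1) ≤ 0 := by
      by_contra hc
      rw [not_le] at hc
      have := mul_pos hc hEp
      nlinarith
    have h4 : (volume T).toReal / (volume K).toReal - 1 ≤ 0 := by
      by_contra hc
      rw [not_le] at hc
      have := mul_pos hδ hc
      linarith
    have h5 : (volume T).toReal ≤ (volume K).toReal := by
      rw [sub_nonpos, div_le_one hk0] at h4
      exact h4
    have h6 : volume T ≤ volume K := (ENNReal.toReal_le_toReal hVT hVKf).1 h5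
    -- equality of the sets
    have hdiff : volume (T \ K) = 0 := by
      rw [measure_sdiff hKsub hcp.isClosed.measurableSet.nullMeasurableSet hVKf]
      exact tsub_eq_zero_of_le h6
    have hint : interior T ⊆ K := by
      intro x hx
      by_contra hxK
      have hopen : IsOpen (interior T \ K) := isOpen_interior.sdiff hcp.isClosed
      have hpos : 0 < volume (interior T \ K) := hopen.measure_pos _ ⟨x, hx, hxK⟩
      have : volume (interior T \ K) ≤ volume (T \ K) :=
        measure_mono (Set.sdiff_subset_sdiff_left interior_subset)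
      rw [hdiff] at this
      exact absurd hpos (not_lt.2 this)
    have hTK : T ⊆ K := (closure_interior_of_SimD hT).trans
      (hcp.isClosed.closure_subset_iff.2 hint)
    have : K = T := Set.Subset.antisymm hKsub hTK
    rw [this]
    exact hT

end Helper37.SY.GEN

end
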