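import Pool.Agent.Helper5.SY.LOC
import Pool.Agent.Helper29.SY.AVG
import Pool.Agent.Helper45.SY.VTX
import Pool.Agent.Helper52.SY.FCV
import Pool.Agent.Helper75.SY.NEA
import Pool.Agent.Helper76.SY.VOL
import Pool.Agent.Helper80.SY.TAY
import Pool.Agent.Helper88.SY.WPR
import Pool.Agent.Helper88.SY.HOM
import Pool.Agent.Helper89.SY.STR
import Pool.Agent.Helper54.LP.COR
import Pool.Agent.Helper37.SY.GEN
import Pool.Agent.Helper37.SY.Fin

/-!
# Swarm SY: assembly
-/

set_option autoImplicit false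

noncomputable section

open MeasureTheory
open scoped ENNReal

namespace Helper37.SY.All

open Helper37.SY Pool.Agent.Helper77.LM

theorem wpr : S_WPR := Pool.Agent.Helper88.SY.WPR.main
theorem hom : S_HOM := Pool.Agent.Helper88.SY.HOM.main
theorem fcv : S_FCV := Pool.Agent.Helper52.SY.FCV.main wpr
theorem tay : S_TAY := Pool.Agent.Helper80.SY.TAY.main wpr
theorem avg : S_AVG := Pool.Agent.Helper29.SY.AVG.main fcv hom tay
theorem str : S_STR := Pool.Agent.Helper89.SY.STR.main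
theorem vtx : S_VTX := Pool.Agent.Helper45.SY.VTX.main wpr fcv
theorem loc : S_LOC := Helper5.SY.LOC.main fcv avg str vtx Pool.Agent.Helper54.LP.COR.main
theorem nea : S_NEA := Pool.Agent.Helper75.SY.NEA.main fcv tay loc
theorem gen : S_GEN := Helper37.SY.GEN.main nea hom fcv
theorem vol : S_VOL := Pool.Agent.Helper76.SY.VOL.main

theorem fin (n : ℕ) (hn : 2 ≤ n) (q : ℝ) (hq : 1 ≤ q) :
    ∃ δ : ℝ, 0 < δ ∧ ∀ D T₀ : Set (Fin n → ℝ), Convex ℝ D → IsCompact D → (interior D).Nonempty →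
      IsSimplex T₀ → D ⊆ T₀ → volume T₀ ≤ ENNReal.ofReal (1 + δ) * volume D →
      Mom q D ≤ Mom q (stdS n) ∧ (Mom q D = Mom q (stdS n) → IsSimplex D) ∧
      ∃ T : Set (Fin n → ℝ), IsSimplex T ∧ D ⊆ T ∧ volume T ≤ volume T₀ ∧
        Mom q D ≤ (1 - δ * ((volume T).toReal / (volume D).toReal - 1)) * Mom q (stdS n) :=
  Helper37.SY.fin gen hom vol n hn q hq

end Helper37.SY.All

end
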