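import Pool.Agent.Helper63.LP.Spec

/-!
# Swarm SY (MP_a8433b_co, Sylvester's problem in dimension at least three): the simplex is a strict local
# maximiser, with linear stability, for all moments `q ≥ 1` of the volume of a random simplex

Here `n = k + 2` (dimension), `Dl n` is the centered simplex of `Helper77/LM`, `V n` its volume.
-/

set_option autoImplicit false

noncomputable section

open MeasureTheory Set Filter Topology
open scoped ENNReal

namespace Helper37.SY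

open Pool.Agent.Helper77.LM Helper63.LP

variable {n : ℕ}

/-- `(n! times the volume of the simplex with the vertices x i) ^ q` -/
def W (q : ℝ) (x : Fin (n + 1) → Fin n → ℝ) : ℝ :=
  |(Matrix.of fun i j : Fin n => x i.succ j - x 0 j).det| ^ q

/-- the integral of `W q` over `K ^ (n + 1)` -/
def Gq (q : ℝ) (K : Set (Fin n → ℝ)) : ℝ :=
  ∫ x in {x : Fin (n + 1) → Fin n → ℝ | ∀ i, x i ∈ K}, W q x

/-- one vertex is `x`, the others are integrated over the simplex `Dl n` -/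
def F (q : ℝ) (x : Fin n → ℝ) : ℝ :=
  ∫ y in {y : Fin n → Fin n → ℝ | ∀ i, y i ∈ Dl n}, W q (Fin.cons x y)

/-- the affine invariant functional -/
def E (q : ℝ) (K : Set (Fin n → ℝ)) : ℝ := Gq q K / (volume K).toReal ^ ((n : ℝ) + 1 + q)

/-- WPR: elementary properties: continuity; invariance under permutations of the points and under
translations; `W q (A x) = |det A|^q W q x`; convexity in the first point (the determinant is an affine
function of it, `|·|^q` is convex) -/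
def S_WPR : Prop := ∀ (n : ℕ) (q : ℝ), 1 ≤ q →
  Continuous (W q : (Fin (n + 1) → Fin n → ℝ) → ℝ) ∧
  (∀ (σ : Equiv.Perm (Fin (n + 1))) (x : Fin (n + 1) → Fin n → ℝ), W q (fun i => x (σ i)) = W q x) ∧
  (∀ (A : Matrix (Fin n) (Fin n) ℝ) (c : Fin n → ℝ) (x : Fin (n + 1) → Fin n → ℝ),
    W q (fun i => A.mulVec (x i) + c) = |A.det| ^ q * W q x) ∧
  ∀ y : Fin n → Fin n → ℝ, ConvexOn ℝ univ (fun x : Fin n → ℝ => W q (Fin.cons x y))

/-- HOM (hypothesis WPR): change of variables in `K ^ (n+1)`; the determinant of `x ↦ (A x_i)` on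
`(n+1)` copies is `(det A)^(n+1)` (or one variable at a time; `MeasureTheory.volume_preserving`,
`Measure.pi`, `Real.map_matrix_volume_pi_eq_smul_volume_pi`) -/
def S_HOM : Prop := ∀ (n : ℕ) (q : ℝ), 1 ≤ q → ∀ (A : Matrix (Fin n) (Fin n) ℝ) (c : Fin n → ℝ)
  (K : Set (Fin n → ℝ)), A.det ≠ 0 → MeasurableSet K →
    |A.det| ^ ((n : ℝ) + 1 + q) * Gq q {x | A.mulVec x + c ∈ K} = Gq q K

/-- FCV (hypothesis WPR): `F` is convex, continuous (dominated convergence: `W` is bounded on compact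
sets), symmetric (`Tl σ` preserves `Dl n` and the volume: `mp_Tl`, determinant `±1`), and Fubini
(`MeasureTheory.volume_preserving_piFinSuccAbove` or `measurePreserving_piFinSuccAbove`) -/
def S_FCV : Prop := ∀ (n : ℕ) (q : ℝ), 1 ≤ q →
  ConvexOn ℝ univ (F q : (Fin n → ℝ) → ℝ) ∧ Continuous (F q : (Fin n → ℝ) → ℝ) ∧
  (∀ x : Fin n → ℝ, 0 ≤ F q x) ∧
  (∀ (σ : Equiv.Perm (Fin (n + 1))) (x : Fin n → ℝ), F q (Tl σ x) = F q x) ∧
  ∫ x in Dl n, F q x = Gq q (Dl n) ∧ 0 < Gq q (Dl n)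

/-- TAY (hypothesis WPR): for indicators `a_i` of `Dl n \ K`,
`1 - ∑ a_i ≤ ∏ (1 - a_i) ≤ 1 - ∑ a_i + ∑_{i<j} a_i a_j`, multiplied by `W` (bounded by `M` on the
compact set) and integrated over `(Dl n)^(n+1)`; `∫ a_i W = ∫_{Dl n \ K} F` (symmetry and Fubini),
`∫ a_i a_j W ≤ M |Dl n \ K|² V^(n-1)` -/
def S_TAY : Prop := ∀ (n : ℕ) (q : ℝ), 1 ≤ q → ∃ C : ℝ, 0 < C ∧ ∀ K : Set (Fin n → ℝ),
  MeasurableSet K → K ⊆ Dl n →
    Gq q (Dl n) - ((n : ℝ) + 1) * ∫ x in Dl n \ K, F q x ≤ Gq q K ∧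
    Gq q K ≤ Gq q (Dl n) - ((n : ℝ) + 1) * (∫ x in Dl n \ K, F q x) +
      C * (volume (Dl n \ K)).toReal ^ 2

/-- AVG (hypotheses FCV, HOM, TAY; `n = m + 1`): `K = s • Dl n`, `Gq (s • Dl) = s^(n (n+1+q)) Gq Dl`
(HOM), so `(1 - s^(n (n+1+q))) Gq Dl ≤ (n+1) ∫_{Dl \ s • Dl} F`, which is
`≤ (n+1) (m+2)/(m+1) (1-s) A m F` by the polar formula (`lint_cone_radial`, see `dil_upper` and
`facet_avg` in `Facet.lean`; `F (r • x) ≤ F x` for `0 ≤ r ≤ 1` by convexity and symmetry: the mean over the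
permutations of `x` is `0`, or `F 0 ≤ F x` in some other way); divide by `1 - s`, `s → 1`;
`V (m+1) = (m+2)/(m+1)² V m` (the same formula) -/
def S_AVG : Prop := ∀ (m : ℕ) (q : ℝ), 1 ≤ q →
  (1 + q / ((m : ℝ) + 2)) * (Gq q (Dl (m + 1)) / V (m + 1)) ≤ A m (F q) / V m

/-- STR: strict Chebyshev inequality for the radial coordinate.  `A_step`, `sg (bary (s • l)) = s`
(see `Helper54/LP/COR.lean`); `φ s = A k (Ts s f)` is nondecreasing and continuous, not constant (Jensen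
for the symmetric convex function `f` would give `φ 1 > φ 0`: `φ 0 = f (ctr) V k`; if `φ` were constant,
`f` would be equal to its minimum `f ctr` almost everywhere, by continuity everywhere), and
`∫ s^k (s - (k+1)/(k+2)) φ s ds > 0` -/
def S_STR : Prop := ∀ (k : ℕ) (f : (Fin (k + 2) → ℝ) → ℝ), Cls (k + 1) f → Continuous f →
  f (ctr (k + 1)) < f (Pi.single 0 1) →
    A (k + 1) f < ((k : ℝ) + 2) / ((k : ℝ) + 1) * A (k + 1) (fun l => f l * sg (k + 1) l)

/-- VTX (hypotheses WPR, FCV; `n = m + 1 ≥ 2`): `ctr m` is the mean of the points `Pi.single i 1`,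
which are permuted by the symmetries; `W q (·, y)` is `|affine|^q`, so
`W q (ctr, y) ≤ (1/n) ∑ W q (e_i, y)`, and the inequality is strict if the affine function has different
signs at `e_0` and `e_1`; this is true for `y` in a nonempty open subset of `(Dl n)^n`, e.g. near `n`
points in general position in `{x_0 = x_1}`, near `0`.  (`∫` of a nonnegative continuous function which
is positive at an interior point is positive) -/
def S_VTX : Prop := ∀ (m : ℕ) (q : ℝ), 1 ≤ m → 1 ≤ q →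
  F q (ctr m : Fin (m + 1) → ℝ) < F q (Pi.single 0 1 : Fin (m + 1) → ℝ)

/-- LOC (hypotheses FCV, AVG, STR, VTX and `Helper63.LP.S_LB`, `Helper63.LP.S_COR`, which are proved):
as `first_order` in `Gauge.lean` or `Helper5/LU/LOC.lean`: `outside_formula` for `g = F q` and `g = 1`
with `β i l = W_i(l) = ∫_{1/γ}^1 s^(k+1) ds`; `(1 - C bt) bb ≤ β ≤ bb`;
`F (s • l) ≥ F l - C (1 - s)` (convexity and boundedness on `2 • Dl`), and by COR and STR
`A (F * bb i) ≥ (1 + c) (A F / V) A (bb i)` -/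
def S_LOC : Prop := ∀ (k : ℕ) (q : ℝ), 1 ≤ q → ∃ η0 c : ℝ, 0 < η0 ∧ η0 < 1 ∧ 0 < c ∧
  ∀ K : Set (Fin (k + 2) → ℝ), Near (k + 1) η0 K →
    (1 + q / ((k : ℝ) + 3) + c) * (Gq q (Dl (k + 2)) / V (k + 2)) *
      (volume (Dl (k + 2) \ K)).toReal ≤ ∫ x in Dl (k + 2) \ K, F q x

/-- NEA (hypotheses FCV, TAY, LOC): real computation; `|Dl \ K| = d V` with `d` small because
`(1-η) • Dl ⊆ K`; `(1-d)^N ≥ 1 - N d`, `N = n + 1 + q`;
`Gq K ≤ Gq Dl - (N + c) d Gq Dl + C d² ≤ (1 - c' d) (1 - d)^N Gq Dl` -/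
def S_NEA : Prop := ∀ (k : ℕ) (q : ℝ), 1 ≤ q → ∃ η0 c : ℝ, 0 < η0 ∧ η0 < 1 ∧ 0 < c ∧
  ∀ K : Set (Fin (k + 2) → ℝ), Near (k + 1) η0 K → 0 < (volume K).toReal ∧
    E q K ≤ (1 - c * (volume (Dl (k + 2) \ K)).toReal) * E q (Dl (k + 2))

/-- GEN (hypotheses NEA, HOM): as `Helper77/LP/GEN.lean` / `Helper95/LU/GNA.lean` -/
def S_GEN : Prop := ∀ (k : ℕ) (q : ℝ), 1 ≤ q → ∃ δ : ℝ, 0 < δ ∧
  ∀ K T₀ : Set (Fin (k + 2) → ℝ), Convex ℝ K → IsCompact K → (interior K).Nonempty → SimD T₀ →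
    K ⊆ T₀ → volume T₀ ≤ ENNReal.ofReal (1 + δ) * volume K →
    E q K ≤ E q (Dl (k + 2)) ∧ (E q K = E q (Dl (k + 2)) → SimD K) ∧
    ∃ T : Set (Fin (k + 2) → ℝ), SimD T ∧ K ⊆ T ∧ volume T ≤ volume T₀ ∧
      E q K ≤ (1 - δ * ((volume T).toReal / (volume K).toReal - 1)) * E q (Dl (k + 2))

/-- VOL: the volume of a simplex (degenerate simplices have volume zero) -/
def S_VOL : Prop := ∀ (n : ℕ) (x : Fin (n + 1) → Fin n → ℝ),
  (volume (convexHull ℝ (Set.range x))).toReal =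
    |(Matrix.of fun i j : Fin n => x i.succ j - x 0 j).det| / (n.factorial : ℝ)

end Helper37.SY

end
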